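import Pool.Agent.Run7.h537.AT.Up
import Pool.Agent.Run7.h537.AT.Low
import Pool.Agent.Run7.h537.AT.Mom
import Pool.Agent.Run7.h561.TP.P_INP
import Pool.Agent.H973R2.Main1

/-!
# Sharp tails and moments of the number of accessible vertices of critical clusters

Critical bond percolation on `ℤ²` in the box `Λ_n = {0, …, n}²`: `F` is the set of open edges,
uniformly distributed on the subsets of `edges n` (`Plain.prob`), `Plain.box n` is the set of the
vertices, `Plain.cluster F v` the cluster of `v`, and `Plain.Largest n F v` says that this cluster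
has the largest Euclidean diameter.  These definitions are those of the starting file
`Pool/Agent/Results/MP_6bd702_pr/PerimeterExponent.lean` (in `Pool/Agent/H342R2/Per/Plain.lean`), and
`Accessible`, `accessible` are those of the starting file `AccessibleVerticesOrder.lean`.

Upper bounds: a cluster of diameter between `M` and `2 M` is contained in a box of side `3 M`, its
accessible vertices have three arms, and the number of the vertices with three arms in a box has
tails `exp (- c u ^ 3)` (multi-scale bound of helper992).  Lower bounds: a comb of open cells of side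
`m`, with closed slits between the teeth and a gadget of helper561 (project TP) in each of the
`(n / m) ^ 2` places along the slits, costs `exp (- C (n / m) ^ 2)` and has
`c (n / m) ^ 2 m ^ (4/3)` accessible vertices; all the other clusters are small with a conditional
probability bounded below (helper801, project AV).
-/

set_option autoImplicit false

namespace Pool.Agent.Results.MP_6bd702_pr.AccessibleTail

open H342P

/-- The square lattice without the vertices of the set `C`: nearest neighbours, both outside `C`. -/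
def avoidGraph (C : Set (ℤ × ℤ)) : SimpleGraph (ℤ × ℤ) :=
  SimpleGraph.fromRel (fun u w => (∃ e : Plain.Edge, Plain.fst e = u ∧ Plain.snd e = w) ∧
    u ∉ C ∧ w ∉ C)

/-- The vertex `w` of the cluster `C` of `v` is accessible: some lattice neighbour `p` of `w` is not
in `C` and is joined to a vertex `q` outside `Λ_n` by a lattice path (through open or closed edges)
which avoids `C`. -/
def Accessible (n : ℕ) (F : Finset Plain.Edge) (v w : ℤ × ℤ) : Prop :=
  w ∈ Plain.cluster F v ∧ ∃ (e : Plain.Edge) (p q : ℤ × ℤ),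
    ((Plain.fst e = w ∧ Plain.snd e = p) ∨ (Plain.fst e = p ∧ Plain.snd e = w)) ∧
    p ∉ Plain.cluster F v ∧ q ∉ Plain.box n ∧ (avoidGraph (Plain.cluster F v)).Reachable p q

open Classical in
/-- The set of the accessible vertices of the cluster of `v` in `Λ_n`. -/
noncomputable def accessible (n : ℕ) (F : Finset Plain.Edge) (v : ℤ × ℤ) : Finset (ℤ × ℤ) :=
  (Plain.box n).filter (fun w => Accessible n F v w)

/-- The expectation of `f` for critical bond percolation in `Λ_n`. -/
noncomputable def mean (n : ℕ) (f : Finset Plain.Edge → ℝ) : ℝ :=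
  (∑ F ∈ (Plain.edges n).powerset, f F) / 2 ^ (Plain.edges n).card

theorem mean_eq (n : ℕ) (f : Finset Plain.Edge → ℝ) :
    mean n f = H974.Ex (fun _ => (1/2:ℝ)) (H974.RE 0 n 0 n) f := by
  rw [H973.Ex_half, mean, Plain.edges_eq, one_div, inv_pow, inv_mul_eq_div]

theorem acc_eq (n : ℕ) (F : Finset Plain.Edge) (v : ℤ × ℤ) :
    accessible n F v = Pool.Agent.W424.OD.accessible n F v := rfl

theorem ubound : ∃ C : ℝ, 1 ≤ C ∧ ∀ (c : ℤ × ℤ) (k : ℕ), 1 ≤ k → ∀ S : Finset H974.Edg,
    H12S.blk c k ⊆ S → H12S.PQ (1/2) S (fun F => Pool.Agent.W424.OD.A3v c 1 k ↑F) ≤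
      C * (k : ℝ) ^ (-(2/3):ℝ) := by
  obtain ⟨C, hC, h⟩ := Run7.h561.i_U3
  refine ⟨C + 1, by linarith, fun c k hk S hS => ?_⟩
  have h1 := h c 1 k le_rfl hk S hS
  have hk0 : (0:ℝ) < k := by exact_mod_cast hk
  refine h1.trans ?_
  rw [Nat.cast_one, one_div, ← Real.rpow_neg_one, ← Real.rpow_mul hk0.le]
  norm_num
  exact mul_le_mul_of_nonneg_right (by linarith) (by positivity)

/-- (1) There are `C, c > 0` such that for all `n ≥ 1` and `x ≥ 0` the probability that some cluster
of `Λ_n` has at least `x n ^ (4/3)` accessible vertices is at most `C exp (- c x ^ 3)`.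
(2) There are `C, c > 0` and `n₀` such that for all `n ≥ n₀` and `1 ≤ x ≤ c n ^ (2/3)` the probability
that every cluster of largest Euclidean diameter has at least `x n ^ (4/3)` accessible vertices is at
least `exp (- C x ^ 3)`.
(3) There is `C > 0` such that for all `n ≥ 1`, every choice `sel` of a cluster (depending on the
configuration) and all `k`, the `k`-th moment of the number of the accessible vertices of the chosen
cluster is at most `C ^ k (k!) ^ (1/3) (n ^ (4/3)) ^ k`.
(4) There are `c > 0` and `n₀` such that for all `n ≥ n₀`, every choice `sel` of a cluster of largest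
Euclidean diameter and all `k ≤ c n ^ 2`, this moment is at least
`c ^ k (k!) ^ (1/3) (n ^ (4/3)) ^ k`. -/
theorem result :
    (∃ C c : ℝ, 0 < C ∧ 0 < c ∧ ∀ n : ℕ, 1 ≤ n → ∀ x : ℝ, 0 ≤ x →
      Plain.prob n (fun F => ∃ v, x * (n : ℝ) ^ (4 / 3 : ℝ) ≤ ((accessible n F v).card : ℝ)) ≤
        C * Real.exp (-(c * x ^ 3))) ∧
    (∃ (C c : ℝ) (n₀ : ℕ), 0 < C ∧ 0 < c ∧ ∀ n : ℕ, n₀ ≤ n → ∀ x : ℝ, 1 ≤ x →
      x ≤ c * (n : ℝ) ^ (2 / 3 : ℝ) →
      Real.exp (-(C * x ^ 3)) ≤ Plain.prob n (fun F => ∀ v, Plain.Largest n F v →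
        x * (n : ℝ) ^ (4 / 3 : ℝ) ≤ ((accessible n F v).card : ℝ))) ∧
    (∃ C : ℝ, 0 < C ∧ ∀ n : ℕ, 1 ≤ n → ∀ (sel : Finset Plain.Edge → ℤ × ℤ) (k : ℕ),
      mean n (fun F => ((accessible n F (sel F)).card : ℝ) ^ k) ≤
        C ^ k * (k.factorial : ℝ) ^ (1 / 3 : ℝ) * ((n : ℝ) ^ (4 / 3 : ℝ)) ^ k) ∧
    (∃ (c : ℝ) (n₀ : ℕ), 0 < c ∧ ∀ n : ℕ, n₀ ≤ n → ∀ (sel : Finset Plain.Edge → ℤ × ℤ),
      (∀ F, F ⊆ Plain.edges n → Plain.Largest n F (sel F)) → ∀ k : ℕ, (k : ℝ) ≤ c * (n : ℝ) ^ 2 →
      c ^ k * (k.factorial : ℝ) ^ (1 / 3 : ℝ) * ((n : ℝ) ^ (4 / 3 : ℝ)) ^ k ≤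
        mean n (fun F => ((accessible n F (sel F)).card : ℝ) ^ k)) := by
  obtain ⟨C1, hC1, hU⟩ := ubound
  obtain ⟨K, c, hK, hc, hup⟩ := Run7.h537.AT.up hC1 hU
  obtain ⟨C', c', n0, hC', hc', hlow⟩ := Run7.h537.AT.low Run7.h561.t_PBX Run7.h561.a_GAD
    Pool.Agent.W801.AV.t_SML
  have hok : H974.Ok (fun _ : H974.Edg => (1/2:ℝ)) := fun _ => ⟨by norm_num, by norm_num⟩
  refine ⟨⟨K, c, hK, hc, ?_⟩, ⟨C', c', n0, hC', hc', ?_⟩, ?_, ?_⟩
  · intro n hn x hx
    rw [Plain.prob_eq]
    exact hup n hn x hx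
  · intro n hn x hx1 hx2
    rw [Plain.prob_eq]
    exact hlow n hn x hx1 hx2
  · obtain ⟨C2, hC2, hm⟩ := Run7.h537.AT.mom_up hK hc
    refine ⟨C2, hC2, fun n hn sel k => ?_⟩
    have hn0 : (0:ℝ) < n := by exact_mod_cast hn
    have hN : 0 < (n:ℝ) ^ (4/3:ℝ) := by positivity
    have h1 := hm (H974.RE 0 n 0 n)
      (fun F => ((accessible n F (sel F)).card : ℝ) / (n:ℝ) ^ (4/3:ℝ)) (fun F => by positivity)
      (fun x hx => by
        refine le_trans (H974.Pr_mono hok fun F _ hF => ?_) (hup n hn x hx)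
        rw [le_div_iff₀ hN] at hF
        exact ⟨sel F, hF⟩) k
    rw [mean_eq]
    have e : H974.Ex (fun _ => (1/2:ℝ)) (H974.RE 0 n 0 n)
        (fun F => ((accessible n F (sel F)).card : ℝ) ^ k) =
        H974.Ex (fun _ => (1/2:ℝ)) (H974.RE 0 n 0 n)
          (fun F => (((accessible n F (sel F)).card : ℝ) / (n:ℝ) ^ (4/3:ℝ)) ^ k) *
            ((n:ℝ) ^ (4/3:ℝ)) ^ k := by
      rw [← H974.Ex_mul_right]
      apply H974.Ex_congr
      intro F _
      rw [← mul_pow, div_mul_cancel₀ _ hN.ne']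
    rw [e]
    exact mul_le_mul_of_nonneg_right h1 (by positivity)
  · obtain ⟨c2, hc2, hm⟩ := Run7.h537.AT.mom_low hC' hc'
    refine ⟨c2, n0 + 1, hc2, fun n hn sel hsel k hk => ?_⟩
    have hn0 : (0:ℝ) < n := by
      have : 0 < n := by omega
      exact_mod_cast this
    have hN : 0 < (n:ℝ) ^ (4/3:ℝ) := by positivity
    have h1 := hm n (by omega) (H974.RE 0 n 0 n)
      (fun F => ((accessible n F (sel F)).card : ℝ) / (n:ℝ) ^ (4/3:ℝ)) (fun F => by positivity)
      (fun x hx1 hx2 => by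
        refine (hlow n (by omega) x hx1 hx2).trans (H974.Pr_mono hok fun F hF h => ?_)
        rw [le_div_iff₀ hN]
        exact h (sel F) (hsel F (by rw [Plain.edges_eq]; exact hF))) k hk
    rw [mean_eq]
    have e : H974.Ex (fun _ => (1/2:ℝ)) (H974.RE 0 n 0 n)
        (fun F => ((accessible n F (sel F)).card : ℝ) ^ k) =
        H974.Ex (fun _ => (1/2:ℝ)) (H974.RE 0 n 0 n)
          (fun F => (((accessible n F (sel F)).card : ℝ) / (n:ℝ) ^ (4/3:ℝ)) ^ k) *
            ((n:ℝ) ^ (4/3:ℝ)) ^ k := by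
      rw [← H974.Ex_mul_right]
      apply H974.Ex_congr
      intro F _
      rw [← mul_pow, div_mul_cancel₀ _ hN.ne']
    rw [e]
    exact mul_le_mul_of_nonneg_right h1 (by positivity)

end Pool.Agent.Results.MP_6bd702_pr.AccessibleTail
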