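import Pool.Agent.Run7.h561.TP.P_INP
import Pool.Agent.Run7.h561.TP.P_FINC

/-!
# Every macroscopic critical cluster has at least `lam n ^ (4/3)` accessible vertices

Critical bond percolation on `ℤ²` in the box `Λ_n = {0, …, n}²`: `F` is the set of open edges,
uniformly distributed on the subsets of `edges n` (`Plain.prob`), `Plain.box n` is the set of the
vertices, `Plain.cluster F v` the cluster of `v`, `Plain.sqDist` the square of the Euclidean
distance, and `Plain.Largest n F v` says that the cluster of `v` has the largest Euclidean diameter.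
These definitions are those of the starting file
`Pool/Agent/Results/MP_6bd702_pr/PerimeterExponent.lean` (in `Pool/Agent/H342R2/Per/Plain.lean`), and
`avoidGraph`, `Accessible`, `accessible` are those of the starting file
`Pool/Agent/Results/MP_6bd702_pr/AccessibleVerticesOrder.lean`, which has the matching upper bound
with probability close to one, and the lower bound with some positive probability.

Proof (project TP, folder `Pool/Agent/Run7/h561/TP`).  The lowest vertex of a macroscopic cluster on a
vertical line is a tip: below it, the line is a slit which avoids the cluster.  Gadgets of all the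
scales near the tip (three-arm event with a thick path, second moment method) are connected to the
cluster by a painting argument which uses that the mean number of clusters which come near a point of
the line and avoid the line below is at most linear in the ratio of the scales; so with probability
close to one some gadget of macroscopic size is connected to the cluster and opens into the slit.
The one-point estimate is from the project FR (helper989 and others), the three-arm estimates from
the projects KI, RS, OU, OS, KZ, KZR (helper424, helper801, helper808 and many others).  Parts of the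
present project were proved by helper298 and helper165.
-/

set_option autoImplicit false

namespace Pool.Agent.Results.MP_6bd702_pr.AccessibleVerticesAllClusters

open H342P H974 H12S H984P H984N Run7.h561

/-- The square lattice without the vertices of the set `C`: nearest neighbours, both outside `C`. -/
def avoidGraph (C : Set (ℤ × ℤ)) : SimpleGraph (ℤ × ℤ) :=
  SimpleGraph.fromRel (fun u w => (∃ e : Plain.Edge, Plain.fst e = u ∧ Plain.snd e = w) ∧
    u ∉ C ∧ w ∉ C)

/-- The vertex `w` of the cluster `C` of `v` is accessible: some lattice neighbour `p` of `w` is not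
in `C` and is joined to a vertex `q` outside `Λ_n` by a lattice path (through open or closed edges)
which avoids `C`. -/
def Accessible (n : ℕ) (F : Finset Plain.Edge) (v w : ℤ × ℤ) : Prop :=
  w ∈ Plain.cluster F v ∧ ∃ (e : Plain.Edge) (p q : ℤ × ℤ),
    ((Plain.fst e = w ∧ Plain.snd e = p) ∨ (Plain.fst e = p ∧ Plain.snd e = w)) ∧
    p ∉ Plain.cluster F v ∧ q ∉ Plain.box n ∧ (avoidGraph (Plain.cluster F v)).Reachable p q

open Classical in
/-- The set of the accessible vertices of the cluster of `v` in `Λ_n`. -/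
noncomputable def accessible (n : ℕ) (F : Finset Plain.Edge) (v : ℤ × ℤ) : Finset (ℤ × ℤ) :=
  (Plain.box n).filter (fun w => Accessible n F v w)

/-- For all `ε, δ > 0` there are `lam > 0` and `n₀` such that, for all `n ≥ n₀`, with probability at
least `1 - ε` every cluster in `Λ_n` which has Euclidean diameter at least `δ n`, or which has the
largest Euclidean diameter in `Λ_n`, has at least `lam n ^ (4/3)` accessible vertices. -/
theorem result : ∀ ε δ : ℝ, 0 < ε → 0 < δ → ∃ (lam : ℝ) (n₀ : ℕ), 0 < lam ∧ ∀ n : ℕ, n₀ ≤ n →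
    1 - ε ≤ Plain.prob n (fun F => ∀ v ∈ Plain.box n,
      ((∃ x ∈ Plain.cluster F v, ∃ y ∈ Plain.cluster F v,
        (δ * n) ^ 2 ≤ (Plain.sqDist x y : ℝ)) ∨ Plain.Largest n F v) →
      lam * (n : ℝ) ^ (4 / 3 : ℝ) ≤ ((accessible n F v).card : ℝ)) := by
  intro ε δ hε hδ
  obtain ⟨δ0, n0, hδ0, hn0⟩ := big_ex (half_pos hε)
  obtain ⟨lam, n1, hlam, hn1⟩ := t_FINC a_GAD a_TIP (ε / 2) (min δ δ0) (half_pos hε)
    (lt_min hδ hδ0)
  refine ⟨lam, n0 + n1, hlam, fun n hn => ?_⟩
  have h1 := hn0 n (by omega)
  have h2 := hn1 n (by omega)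
  rw [Plain.prob_eq] at h2 ⊢
  set A : Finset Edg → Prop := fun F => ∀ v, Plain.Largest n F v → ∃ x ∈ Plain.cluster F v,
    ∃ y ∈ Plain.cluster F v, (δ0 * n) ^ 2 ≤ (Plain.sqDist x y : ℝ) with hA
  set B : Finset Edg → Prop := fun F => ∀ v ∈ Plain.box n, ∀ x ∈ Plain.cluster F v,
    ∀ y ∈ Plain.cluster F v, (min δ δ0 * n) ^ 2 ≤ (Plain.sqDist x y : ℝ) →
      lam * (n : ℝ) ^ (4 / 3 : ℝ) ≤ ((Pool.Agent.W424.OD.accessible n F v).card : ℝ) with hB
  set D : Finset Edg → Prop := fun F => ∀ v ∈ Plain.box n,
      ((∃ x ∈ Plain.cluster F v, ∃ y ∈ Plain.cluster F v,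
        (δ * n) ^ 2 ≤ (Plain.sqDist x y : ℝ)) ∨ Plain.Largest n F v) →
      lam * (n : ℝ) ^ (4 / 3 : ℝ) ≤ ((accessible n F v).card : ℝ) with hD
  have hmin : ∀ δ' : ℝ, min δ δ0 ≤ δ' → ∀ X : ℝ, (δ' * n) ^ 2 ≤ X → (min δ δ0 * n) ^ 2 ≤ X := by
    intro δ' h X hX
    have h0 : 0 < min δ δ0 := lt_min hδ hδ0
    refine le_trans (pow_le_pow_left₀ (by positivity) ?_ 2) hX
    exact mul_le_mul_of_nonneg_right h (Nat.cast_nonneg n)
  have h3 : PQ (1 / 2) (RE 0 n 0 n) (fun F => ¬ D F) ≤
      PQ (1 / 2) (RE 0 n 0 n) (fun F => ¬ A F ∨ ¬ B F) := by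
    refine Pr_mono ok_half fun F _ hbad => ?_
    by_contra hcon
    rw [not_or, not_not, not_not] at hcon
    apply hbad
    intro v hv hv2
    obtain ⟨x, hx, y, hy, hxy⟩ : ∃ x ∈ Plain.cluster F v, ∃ y ∈ Plain.cluster F v,
        (min δ δ0 * n) ^ 2 ≤ (Plain.sqDist x y : ℝ) := by
      rcases hv2 with ⟨x, hx, y, hy, hxy⟩ | hv2
      · exact ⟨x, hx, y, hy, hmin δ (min_le_left _ _) _ hxy⟩
      · obtain ⟨x, hx, y, hy, hxy⟩ := hcon.1 v hv2
        exact ⟨x, hx, y, hy, hmin δ0 (min_le_right _ _) _ hxy⟩
    exact hcon.2 v hv x hx y hy hxy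
  have h4 := Pr_or_le ok_half (RE 0 n 0 n) (fun F => ¬ A F) (fun F => ¬ B F)
  unfold PQ at h1 h3
  rw [Pr_not] at h3
  rw [Pr_not (RE 0 n 0 n) B] at h4
  have h5 : 1 - ε / 2 ≤ Pr (fun _ => (1 / 2 : ℝ)) (RE 0 n 0 n) B := h2
  have h6 : Pr (fun _ => (1 / 2 : ℝ)) (RE 0 n 0 n) (fun F => ¬ A F) ≤ ε / 2 := h1
  linarith

end Pool.Agent.Results.MP_6bd702_pr.AccessibleVerticesAllClusters
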