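import Pool.Agent.Run7.h561.EC.P_ALL
import Pool.Agent.Run7.h561.EC.P_J6
import Pool.Agent.Run7.h561.EC.P_J8
import Pool.Agent.Run7.h165.EC.Finw
import Pool.Agent.Run7.h165.EC.Finl
import Pool.Agent.Run7.h165.EC.Mlf
import Pool.Agent.Run7.h165.EC.Accl
import Pool.Agent.Run7.h165.EC.Dbll
import Pool.Agent.W424.KI.Fin
import Pool.Agent.Results.MP_6bd702_pr.LimitCurves
import Pool.Agent.Results.MP_6bd702_pr.DoublePoints

/-!
# Every complementary component of every arc of every interface loop

Critical bond percolation on `ℤ²` in the box `Λ_n = {0, …, n}²`: all sets `F` of open edges of the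
box (`F ⊆ Plain.edges n`) are equally likely.  An interface loop is the closed lattice path along
open edges which traces, with a fixed face on its left at each step, the boundary of a cluster seen
from one component of its complement: the outer boundary of a cluster, or the boundary of one of
its holes (`IsLoop`; a state `σ` is a vertex with one of the four faces around it, and `nxt` follows
the next edge if it is open and turns around the vertex otherwise).  The closed path `IsTrace` of the
starting file `LimitCurves`, which traces the outer boundary of a cluster, is one of them.  `Curve` is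
the space of curves, with the distance modulo increasing reparametrisation,
`c.path : C(unitInterval, ℂ)` is a parametrisation of `c`, and `lawOf n f` is the law of `f F`.

Let `γ n F` be an interface loop chosen by any rule (for example the outer boundary of the largest
cluster, or the loop of any given rank in a list by diameter).  Its laws are relatively compact, and
for every weak limit, almost surely, for all times `s < t` such that the loop is not constant on
`[s, t]`:
* the boundary of EVERY connected component of `ℂ \ c[s, t]` has Hausdorff dimension exactly `4/3`;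
* the same for every component of `S \ c[s, t]`, `S` the open unit square (the part of its boundary
  in `S`);
* the same locally, for the components `C` of `U \ c[s, t]` for every open set `U`: for every boundary
  point `z` of `C` in `U ∩ S` and every radius `ρ` the part of the boundary of `C` in
  `U ∩ S ∩ B(z, ρ)` has dimension exactly `4/3`.

Other definitions: `H342R2/Per/Plain.lean`, `H342R3/Lim/{Defs,Curve,Law}.lean`,
`H342R3/Tig/Defs.lean` and `H984R3/Per/Defs.lean` (states), as in `LimitCurves`.

Proof: project EC (helper561, helper165).  Near every boundary point of a component there is a point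
`w` of the component from which an axis parallel ray meets the loop; in a box around `w` which the
loop leaves, the vertices (or the faces) along the loop belong to clusters of the box (or dual
clusters) which reach its boundary, and any such cluster which the ray meets has, with probability
close to one, many vertices, with the energy bounds of dimension `4/3`, which are accessible from `w`;
this passes to the limit.  Upper bounds: three-arm, four-arm and boundary one-arm events.
-/

set_option autoImplicit false

namespace Pool.Agent.Results.MP_6bd702_pr.EveryComponentLoops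

open H984P H342L H342T H342P.Plain MeasureTheory Filter Topology
open scoped ENNReal

/-- `c` is an interface loop of the configuration `F` in the box `Λ_n`, scaled by `1 / n`: it starts
at a vertex `σ.1` of the box, with the face `face σ` on its left, and at each step it follows the next
edge (in clockwise order) if this edge is open, and turns clockwise around the vertex otherwise
(`nxt`; `orb` is its iteration), until it comes back to the initial state for the first time. -/
def IsLoop (n : ℕ) (F : Finset Edge) (c : Curve) : Prop :=
  ∃ (σ : St) (N : ℕ), 0 < N ∧ σ.1 ∈ box n ∧ orb (↑F) σ N = σ ∧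
    (∀ j, 0 < j → j < N → orb (↑F) σ j ≠ σ) ∧ c.path = poly (fun j => pt n (orb (↑F) σ j).1) N

/-- The boundary of the component of `w` in `U` minus the arc `c[s, t]`. -/
def bd (U : Set ℂ) (c : Curve) (s t : unitInterval) (w : ℂ) : Set ℂ :=
  frontier (connectedComponentIn (U \ c.path '' Set.Icc s t) w)

/-- The open unit square. -/
def openSquare : Set ℂ := {z | 0 < z.re ∧ z.re < 1 ∧ 0 < z.im ∧ z.im < 1}

theorem hitl : Run7.h561.EC.S_HITL := Run7.h561.EC.t_HITL Run7.h561.EC.a_LOC4 Run7.h561.EC.a_DUA
  Pool.Agent.Y989.FR.CHN.t_CHN Run7.h165.EC.t_QWC Run7.h165.EC.t_GEW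

theorem finl : Run7.h561.EC.S_FINL := Run7.h165.EC.t_FINL hitl
  (Run7.h165.EC.t_ACCL Pool.Agent.W424.KI.u3)
  (Run7.h165.EC.t_DBLL Pool.Agent.W500.PD.uo Pool.Agent.W347.DPAA.aa
    (Pool.Agent.W571.DPad.ad Pool.Agent.W347.DPAA.aa)) Run7.h165.EC.mlf Run7.h165.EC.t_AXI

theorem result :
    (∀ (n : ℕ) (F : Finset Edge) (v : ℤ × ℤ) (c : Curve), F ⊆ edges n → v ∈ box n →
      IsTrace n F v c → IsLoop n F c) ∧
    ∀ γ : (n : ℕ) → Finset Edge → Curve, (∀ n F, 0 < n → F ⊆ edges n → IsLoop n F (γ n F)) →
      (∀ k : ℕ → ℕ, Tendsto k atTop atTop → ∃ (φ : ℕ → ℕ) (μ : ProbabilityMeasure Curve),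
        StrictMono φ ∧ Tendsto (fun i => lawOf (k (φ i)) (γ (k (φ i)))) atTop (𝓝 μ)) ∧
      (∀ (k : ℕ → ℕ) (μ : ProbabilityMeasure Curve), Tendsto k atTop atTop →
        Tendsto (fun i => lawOf (k i) (γ (k i))) atTop (𝓝 μ) →
        ∀ᵐ c : Curve ∂(μ : Measure Curve), ∀ s t : unitInterval,
          (∃ u ∈ Set.Icc s t, c.path u ≠ c.path s) →
          (∀ w : ℂ, w ∉ c.path '' Set.Icc s t → dimH (bd Set.univ c s t w) = 4 / 3) ∧
          (∀ w ∈ openSquare \ c.path '' Set.Icc s t,
            dimH (bd openSquare c s t w ∩ openSquare) = 4 / 3) ∧
          ∀ U : Set ℂ, IsOpen U → ∀ w : ℂ, ∀ z ∈ bd U c s t w, z ∈ U → z ∈ openSquare →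
            ∀ ρ : ℝ, 0 < ρ →
              dimH (bd U c s t w ∩ (U ∩ openSquare ∩ Metric.ball z ρ)) = 4 / 3) := by
  refine ⟨fun n F v c hF hv hc => Run7.h561.EC.trace_loop hF hv hc, fun γ hγ => ⟨?_, ?_⟩⟩
  · intro k hk
    exact Run7.h561.EC.loop_tight (t_GRD t_POL) (t_SML t_POL) t_CNT t_ARZ t_PRK hγ k hk
  · intro k μ hk hμ
    have hL : Run7.h561.EC.Lps γ := Run7.h561.EC.LpsB.lps hγ
    filter_upwards [finl γ hL k hk μ hμ,
      Run7.h165.EC.t_FINW finl Pool.Agent.W320.PD.HB.hb hL hk hμ] with c hc1 hc2 s t hne
    obtain ⟨h1, h2⟩ := hc2 s t hne
    refine ⟨fun w hw => ?_, h2, ?_⟩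
    · have e := h1 w hw
      unfold bd
      rw [← Set.compl_eq_univ_sdiff]
      exact e
    · intro U hU w z hz hzU hzS ρ hρ
      exact hc1 s t hne U hU w z hzU hzS hz ρ hρ

end Pool.Agent.Results.MP_6bd702_pr.EveryComponentLoops
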