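import Pool.Agent.Run7.h561.TP.P_INP
import Pool.Agent.Run7.h561.TP.P_DISC2
import Pool.Agent.Run7.h561.TP.P_SLIT
import Pool.Agent.Run7.h561.TP.P_LIMB
import Pool.Agent.Run7.h561.TP.P_UPO
import Pool.Agent.Y989.FR.T_QC
import Pool.Agent.Y989.FR.T_CHN
import Pool.Agent.W320.PD.HB
import Pool.Agent.W597.PDBL
import Pool.Agent.Results.MP_6bd702_pr.LimitCurves

/-!
# The outer boundary of the scaling limits of the critical cluster perimeter has dimension `4/3`

Critical bond percolation on `ℤ²` in the box `Λ_n = {0, …, n}²`.  `Plain.edges n` is the set of the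
edges of `Λ_n` and `Plain.Largest n F v` says that the cluster of `v` has the largest Euclidean
diameter among the clusters of the configuration `F` (a set of open edges of the box).
`IsTrace n F v c` says that `c` is the closed lattice path tracing the boundary of the unbounded
component of the complement of the cluster of `v`, scaled by `1 / n`.  `Curve` is the space of
curves, with the distance modulo increasing reparametrisation, `c.path : C(unitInterval, ℂ)` is a
parametrisation of `c`, and `lawOf n f` is the law of `f F` when all sets `F` of open edges of the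
box are equally likely.  These definitions are those of the starting file
`Pool/Agent/Results/MP_6bd702_pr/LimitCurves.lean` (see there), which shows that weak limits exist.

Upper bound: three-arm events in annuli (starting files, project KI) and a covering argument
(helper165).  Lower bound: with probability close to one, the largest cluster has a set of vertices of
size `lam n ^ (4/3)` with small energy, from the vicinity of which paths lead to infinity and keep
away from the cluster (project TP, folder `Pool/Agent/Run7/h561/TP`: helper298, helper165,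
helper561); passage to the limit by helper298.
-/

set_option autoImplicit false

namespace Pool.Agent.Results.MP_6bd702_pr.OuterBoundaryDimension

open H342L H342T H342P.Plain MeasureTheory Filter Topology Pool.Agent.W822.PD Run7.h561
open scoped ENNReal

/-- The outer boundary of the curve `c`: the boundary of the unbounded component of the complement
of its trace. -/
def outerBd (c : Curve) : Set ℂ :=
  frontier {z | z ∈ (Set.range c.path)ᶜ ∧
    ¬ Bornology.IsBounded (connectedComponentIn (Set.range c.path)ᶜ z)}

/-- The open unit square. -/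
def openSquare : Set ℂ := {z | 0 < z.re ∧ z.re < 1 ∧ 0 < z.im ∧ z.im < 1}

theorem slit : S_SLIT := t_SLIT (t_NL t_NC) t_CRS

theorem disc : S_DISC := t_DISC a_GAD a_TIP slit

theorem lowb : S_LOWB := t_LIMB disc t_LGC t_GEOB Pool.Agent.Y989.FR.QC.t_QC
  Pool.Agent.Y989.FR.CHN.t_CHN

theorem e43 : ENNReal.ofReal (4/3) = 4/3 := by
  rw [ENNReal.ofReal_div_of_pos (by norm_num)]
  norm_num

/-- The limits are not points. -/
theorem nondeg {sel : (n : ℕ) → Finset Edge → ℤ × ℤ}
    {γ : (n : ℕ) → Finset Edge → Curve} (hG : Gam sel γ) {k : ℕ → ℕ}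
    (hk : Tendsto k atTop atTop) {μ : ProbabilityMeasure Curve}
    (hμ : Tendsto (fun i => lawOf (k i) (γ (k i))) atTop (𝓝 μ)) :
    ∀ᵐ c : Curve ∂(μ : Measure Curve), ∃ s t, c.path s ≠ c.path t := by
  filter_upwards [fin_curves t_CPT LimitCurves.sets sel hG.1 γ hG.2 k hk μ hμ] with c hc
  by_contra hcon
  push Not at hcon
  have h1 : (Set.range c.path).Subsingleton := by
    rintro _ ⟨s, rfl⟩ _ ⟨t, rfl⟩
    exact hcon s t
  rw [h1.dimH_zero] at hc
  have h2 : (7 : ℝ≥0∞) / 4 ≠ 0 := by simp
  exact h2 hc.symm

/-- **Claim 3 for all subsequential limits.**  Let `C_n` be a cluster of largest Euclidean diameter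
(`sel` chooses one of them, by any rule) and `γ_n` the closed lattice path tracing its outer boundary,
divided by `n`.  If the law of `γ_n` converges along some sequence of scales, then, almost surely with
respect to the limit, the outer boundary of the curve has Hausdorff dimension exactly `4/3`; its part
in the open unit square already has this dimension, and its part on the boundary of the square has
dimension at most `2/3`. -/
theorem result (sel : (n : ℕ) → Finset Edge → ℤ × ℤ)
    (hsel : ∀ n F, 0 < n → F ⊆ edges n → Largest n F (sel n F))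
    (γ : (n : ℕ) → Finset Edge → Curve)
    (hγ : ∀ n F, 0 < n → F ⊆ edges n → IsTrace n F (sel n F) (γ n F))
    (k : ℕ → ℕ) (hk : Tendsto k atTop atTop) (μ : ProbabilityMeasure Curve)
    (hμ : Tendsto (fun i => lawOf (k i) (γ (k i))) atTop (𝓝 μ)) :
    ∀ᵐ c : Curve ∂(μ : Measure Curve), dimH (outerBd c) = 4 / 3 ∧
      dimH (outerBd c ∩ openSquare) = 4 / 3 ∧ dimH (outerBd c \ openSquare) ≤ 2 / 3 := by
  have hG : Gam sel γ := ⟨hsel, fun n F hn hF => by
    have hb : sel n F ∈ box n := (hsel n F hn hF).1
    exact (LimitCurves.rng n F (sel n F) (γ n F) hn hF hb (hγ n F hn hF)).2⟩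
  have hnd := nondeg hG hk hμ
  have hup := t_UPO Pool.Agent.W424.KI.u3 sel γ hG k hk μ hμ hnd
  have hlow : ∀ᵐ c : Curve ∂(μ : Measure Curve), ∀ j : ℕ,
      ENNReal.ofReal (4 / 3 - 1 / ((j : ℝ) + 2)) ≤
        dimH (Pool.Agent.W424.OD.oB (Set.range c.path)) := by
    rw [ae_all_iff]
    intro j
    have h3 : (0 : ℝ) < 1 / ((j : ℝ) + 2) := by positivity
    have h4 : 1 / ((j : ℝ) + 2) ≤ 1 / 2 :=
      one_div_le_one_div_of_le (by norm_num) (by linarith [Nat.cast_nonneg (α := ℝ) j])
    exact lowb sel γ hG k hk μ hμ _ (by linarith) (by linarith)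
  have hbl : ∀ᵐ c : Curve ∂(μ : Measure Curve), ∀ j : ℕ, Set.range c.path ⊆ Sqc ∧
      dimH {z | z ∈ Set.range c.path ∧ z ∈ Sqc \ Sq ∧ ∃ u, 1 / ((j:ℝ) + 1) ≤ dist (c.path u) z} ≤
        ENNReal.ofReal (2/3) := by
    rw [ae_all_iff]
    intro j
    exact Pool.Agent.W597.PDBL.bl Pool.Agent.W320.PD.HB.hb sel γ ⟨hsel, hγ⟩ k hk μ hμ _
      (by positivity)
  filter_upwards [hnd, hup, hlow, hbl] with c c1 c2 c3 c4
  have hO : outerBd c = Pool.Agent.W424.OD.oB (Set.range c.path) := rfl
  rw [← hO] at c2
  simp only [← hO] at c3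
  have low : (4/3 : ℝ≥0∞) ≤ dimH (outerBd c) := by
    have hlim : Tendsto (fun j : ℕ => ENNReal.ofReal (4/3 - 1 / ((j:ℝ) + 2))) atTop
        (𝓝 (ENNReal.ofReal (4/3 - 0))) := by
      apply ENNReal.tendsto_ofReal
      apply tendsto_const_nhds.sub
      have h5 : Tendsto (fun j : ℕ => (j:ℝ) + 2) atTop atTop :=
        tendsto_atTop_add_const_right _ _ tendsto_natCast_atTop_atTop
      exact h5.const_div_atTop 1
    rw [sub_zero, e43] at hlim
    exact le_of_tendsto' hlim c3
  have hout : dimH (outerBd c \ openSquare) ≤ 2/3 := by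
    obtain ⟨s, t, hst⟩ := c1
    obtain ⟨j, hj⟩ := exists_nat_one_div_lt (half_pos (dist_pos.2 hst))
    have hsub : outerBd c \ openSquare ⊆ {z | z ∈ Set.range c.path ∧ z ∈ Sqc \ Sq ∧
        ∃ u, 1 / ((j:ℝ) + 1) ≤ dist (c.path u) z} := by
      rintro z ⟨hz, hz2⟩
      have hK : IsClosed (Set.range c.path) := (isCompact_range c.path.continuous).isClosed
      have hr : z ∈ Set.range c.path := UPO.oB_sub hK hz
      refine ⟨hr, ⟨(c4 0).1 hr, hz2⟩, ?_⟩
      by_contra hcon
      push Not at hcon
      have h6 := hcon s
      have h7 := hcon t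
      have h8 := dist_triangle_right (c.path s) (c.path t) z
      linarith
    refine (dimH_mono hsub).trans ((c4 j).2.trans (le_of_eq ?_))
    rw [ENNReal.ofReal_div_of_pos (by norm_num)]
    norm_num
  have hun : dimH (outerBd c) =
      max (dimH (outerBd c ∩ openSquare)) (dimH (outerBd c \ openSquare)) := by
    rw [← dimH_union, Set.inter_union_sdiff]
  have lt : (2/3 : ℝ≥0∞) < 4/3 := by
    rw [← e43, show (2/3 : ℝ≥0∞) = ENNReal.ofReal (2/3) by
      rw [ENNReal.ofReal_div_of_pos (by norm_num)]; norm_num,
      ENNReal.ofReal_lt_ofReal_iff (by norm_num)]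
    norm_num
  have heq : dimH (outerBd c) = 4/3 := le_antisymm c2 low
  refine ⟨heq, ?_, hout⟩
  apply le_antisymm ((dimH_mono Set.inter_subset_left).trans c2)
  rw [hun] at low
  rcases le_max_iff.mp low with h | h
  · exact h
  · exact absurd (h.trans hout) (not_le.mpr lt)

end Pool.Agent.Results.MP_6bd702_pr.OuterBoundaryDimension
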